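import Pool.Agent.Y924.UF.Stm2
import Pool.Agent.Y153.UF.SemAB
import Pool.Agent.Y383.UF.FML
import Pool.Agent.Y686.UF.Clo

/-! # Project UF (helper924), part UF2-FINT (by helper824): meaning of `FinT2`, its variables

Adapted from `Pool.Agent.Y153.UF.SemAB` (helper153) and `Pool.Agent.Y686.UF.Clo` (helper686). -/

set_option autoImplicit false

namespace Pool.Agent.Y824.UF

open Function
open Pool.Agent.Y924.EL Pool.Agent.Y924.UF

section

variable {K : Type} [CommRing K]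

lemma sat_OTF (O : Set K) (q : ℕ) (v : ℕ → K) : Sat O (OTF q) v ↔ OT q (v 64) (v 12) := by
  simp only [OTF, Sat,
    Pool.Agent.Y383.UF.sat_powC O (show 10 ≤ 12 by norm_num) (show 10 ≤ 50 by norm_num),
    Pool.Agent.Y383.UF.sat_powC O (show 10 ≤ 54 by norm_num) (show 10 ≤ 53 by norm_num), OT]
  constructor
  · rintro ⟨a, b, c, d, e, h1, h2, h3, h4, h5⟩
    simp only [update_apply] at h1 h2 h3 h4 h5
    norm_num at h1 h2 h3 h4 h5
    refine ⟨e, ?_⟩
    rw [h5, ← h4, ← h2, ← h1, h3]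
  · rintro ⟨y, hy⟩
    refine ⟨v 12 ^ q, v 64 * v 12 ^ q, 1, 1 + v 64 * v 12 ^ q, y, ?_, ?_, ?_, ?_, ?_⟩ <;>
      simp only [update_apply] <;> norm_num
    exact hy

lemma sat_GdF (O : Set K) (p : ℕ) (v : ℕ → K) : Sat O (GdF p) v ↔ Gd p (v 64) := by
  simp only [GdF, Sat,
    Pool.Agent.Y383.UF.sat_powC O (show 10 ≤ 51 by norm_num) (show 10 ≤ 53 by norm_num),
    Pool.Agent.Y383.UF.sat_powC O (show 10 ≤ 50 by norm_num) (show 10 ≤ 52 by norm_num), Gd]
  refine not_congr ?_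
  constructor
  · rintro ⟨s, c, d, e, h1, h2, h3, h4⟩
    simp only [update_apply] at h1 h2 h3 h4
    norm_num at h1 h2 h3 h4
    refine ⟨s, c, ?_, ?_⟩
    · rw [h1, h2]
    · rw [h3, h4]
  · rintro ⟨s, c, h1, h2⟩
    refine ⟨s, c, s ^ (p + 1), 1, ?_, ?_, ?_, ?_⟩ <;>
      simp only [update_apply] <;> norm_num
    · exact h1
    · exact h2

variable {O : Set K} {Q : (ℕ → K) → Prop} {h : Fin 5 → Fm} {M : Lev K}

lemma sat_FinT2 (hQ : Keeps Q) {τ : K} (hτ : ∀ v, Q v → v 64 = τ) (hR : RepQ O Q h M) (p : ℕ)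
    {v : ℕ → K} (hv : Q v) :
    Sat O ((FinT2 p).inst h) v ↔ Gd p τ ∧ ∃ b c : K, b ≠ 0 ∧ c ≠ 0 ∧
      (∀ x, M.D x → ∃ z, OT (p + 1) τ z ∧ c * z = x) ∧
      ∀ x y, M.D x → M.D y → (∃ z y', OT (p + 1) τ z ∧ b * z = y' ∧ y' + y = x) → x = y := by
  simp only [FinT2, sat_ex, sat_and, sat_neg, sat_isZ, sat_all, sat_imp, sat_atom, sat_eqv,
    sat_GdF, sat_OTF, hτ v hv]
  refine and_congr Iff.rfl (exists_congr fun b => exists_congr fun c => and_congr (by simp)
    (and_congr (by simp)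
    (and_congr (forall_congr' fun x => ?_) (forall_congr' fun x => forall_congr' fun y => ?_))))
  · have h1 : Q (update (update (update v 13 b) 14 c) 10 x) := by
      repeat (first | exact hv | refine hQ _ _ _ (by norm_num) ?_)
    rw [Pool.Agent.Y153.UF.sat_cD hQ hR h1 (by norm_num)]
    refine imp_congr (by simp) (exists_congr fun z => ?_)
    have h2 := hτ _ (hQ _ 12 z (by norm_num) h1)
    rw [h2]
    simp [Sat]
  · have h1 : Q (update (update (update (update v 13 b) 14 c) 10 x) 11 y) := by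
      repeat (first | exact hv | refine hQ _ _ _ (by norm_num) ?_)
    rw [Pool.Agent.Y153.UF.sat_cD hQ hR h1 (by norm_num),
      Pool.Agent.Y153.UF.sat_cD hQ hR h1 (by norm_num)]
    refine imp_congr (by simp) (imp_congr (by simp) (imp_congr (exists_congr fun z =>
      exists_congr fun y' => ?_) (by simp)))
    have h2 := hτ _ (hQ _ 15 y' (by norm_num) (hQ _ 12 z (by norm_num) h1))
    rw [h2]
    simp [Sat]

end

lemma below_FinT2 {V : ℕ} (hV : 68 ≤ V) (p : ℕ) : BelowT V (FinT2 p) := by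
  have h1 := Pool.Agent.Y686.UF.below_powF hV (p + 1)
  have h2 := Pool.Agent.Y686.UF.below_powF hV (p - 1)
  simp only [FinT2, OTF, GdF, powC, Tp.isZ, Tp.cD, Tp.call1, Tp.eqv, Tp.imp, Tp.all, BelowT,
    Below, h1, h2, and_true]
  omega

theorem t_FINT : Pool.Agent.Y924.UF.S_FINT := by
  refine ⟨?_, ?_⟩
  · intro K _ O Q h M p τ hQ hτ hR v hv
    exact sat_FinT2 hQ hτ hR p hv
  · intro p cc V hV
    refine ⟨below_FinT2 hV p, ?_⟩
    have h0 : Below V (.eq 0 0) := ⟨by omega, by omega⟩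
    exact ((Pool.Agent.Y686.UF.t_CLO.2.2.2.2 p cc V (.eq 0 0) hV h0).2.2.2).2

end Pool.Agent.Y824.UF
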