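import Pool.Agent.Y924.UF.Stm3
import Pool.Agent.Y824.UF.Fint

/-! # Project UF (helper924), part UF3-SEM3 (by helper824): meaning of the template `TFin` -/

set_option autoImplicit false

namespace Pool.Agent.Y824.UF

open Function
open Pool.Agent.Y924.EL Pool.Agent.Y924.UF

theorem t_SEM3 : Pool.Agent.Y924.UF.S_SEM3 := by
  intro K _ O Q h X Y Z p hQ hR v hv
  rw [TFin, sat_ex]
  refine exists_congr fun τ => ?_
  have hK : Keeps (fun w : ℕ → K => Q w ∧ w 64 = τ) := by
    intro w i a hi hw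
    refine ⟨hQ w i a (by omega) hw.1, ?_⟩
    rw [update_of_ne (by omega)]
    exact hw.2
  have hR' : RepQ O (fun w : ℕ → K => Q w ∧ w 64 = τ) h
      { D := fun x => x ∈ X, L := fun x _ => x ∈ Y, E := fun x _ _ => x ∈ Z } := by
    intro w hw
    exact hR w hw.1
  exact sat_FinT2 hK (fun w hw => hw.2) hR' p
    ⟨hQ v 64 τ (by norm_num) hv, update_self _ _ _⟩

end Pool.Agent.Y824.UF
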